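import Mathlib
import Pool.Agent.H39.TO.Targets

/-!
# A reflection and two simple reflections give a B-structure (module BWS)
-/

namespace Pool.Agent.H70.TOH.BWS

open Pool.Agent.H57.CP Pool.Agent.H39.TO

theorem mk_comm' (x y : V4) : mk x y = mk y x := by simp only [mk]; ring

theorem refl_eq (a u : V4) : Pool.Agent.H57.CP.refl a u = u + (2 * mk a u) • a := by
  ext i
  simp [Pool.Agent.H57.CP.refl]

theorem refl_fix (a u : V4) (h : mk u a = 0) : Pool.Agent.H57.CP.refl a u = u := by
  rw [refl_eq, mk_comm', h]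
  simp

theorem cl2 {G H : Type} [Group G] [Group H] (f : G →* H) (a b : G) :
    Subgroup.closure {f a, f b} = (Subgroup.closure {a, b}).map f := by
  rw [MonoidHom.map_closure, Set.image_pair]

theorem cl3 {G H : Type} [Group G] [Group H] (f : G →* H) (a b c : G) :
    Subgroup.closure {f a, f b, f c} = (Subgroup.closure {a, b, c}).map f := by
  rw [MonoidHom.map_closure, Set.image_insert_eq, Set.image_pair]

theorem inv_cl {G : Type} [Group G] {a b : G} (ha : a * a = 1) (hb : b * b = 1) {g : G}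
    (hg : g ∈ Subgroup.closure {a, b}) : g ∈ Submonoid.closure ({a, b} : Set G) := by
  rw [← Subgroup.mem_toSubmonoid, Subgroup.closure_toSubmonoid] at hg
  have ha' : a⁻¹ = a := inv_eq_of_mul_eq_one_left ha
  have hb' : b⁻¹ = b := inv_eq_of_mul_eq_one_left hb
  have e : ({a, b} : Set G) ∪ ({a, b} : Set G)⁻¹ = {a, b} := by
    ext x
    simp only [Set.mem_union, Set.mem_insert_iff, Set.mem_singleton_iff, Set.mem_inv]
    constructor
    · rintro (h | h | h)
      · exact h
      · left; rw [← inv_inv x, h, ha']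
      · right; rw [← inv_inv x, h, hb']
    · intro h; exact Or.inl h
  rwa [e] at hg

theorem map_cl {G N : Type} [Group G] [Monoid N] (f : G →* N) {a b : G} (ha : a * a = 1) (hb : b * b = 1) {g : G}
    (hg : g ∈ Subgroup.closure {a, b}) : f g ∈ Submonoid.closure ({f a, f b} : Set N) := by
  have h := inv_cl ha hb hg
  have h2 : f g ∈ (Submonoid.closure ({a, b} : Set G)).map f := ⟨g, h, rfl⟩
  rwa [MonoidHom.map_mclosure, Set.image_pair] at h2

/-- conjugate of a reflection -/
theorem refl_conj {M : CoxeterMatrix (Fin 3)} {al : Fin 3 → V4} {σ : M.Group →* Module.End ℝ V4}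
    (hσ : Sg M al σ) (hL : ∀ w, Lor (σ w)) (w : M.Group) (l : Fin 3) :
    σ (w * ss M l * w⁻¹) = Pool.Agent.H57.CP.refl (σ w (al l)) := by
  apply LinearMap.ext
  intro x
  rw [map_mul, map_mul, Module.End.mul_apply, Module.End.mul_apply, hσ l, refl_eq, refl_eq, map_add, map_smul]
  have e1 : σ w (σ w⁻¹ x) = x := by
    rw [← Module.End.mul_apply, ← map_mul, mul_inv_cancel, map_one, Module.End.one_apply]
  have e2 : mk (al l) (σ w⁻¹ x) = mk (σ w (al l)) x := by
    have e := (hL w).1 (al l) (σ w⁻¹ x)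
    rw [e1] at e
    exact e.symm
  rw [e1, e2]

theorem fixes {M : CoxeterMatrix (Fin 3)} {al : Fin 3 → V4} {σ : M.Group →* Module.End ℝ V4}
    (hσ : Sg M al σ) {i j : Fin 3} {v : V4} (vi : mk v (al i) = 0) (vj : mk v (al j) = 0) :
    ∀ g ∈ Subgroup.closure {ss M i, ss M j}, σ g v = v := by
  intro g hg
  induction hg using Subgroup.closure_induction with
  | mem g hg =>
    rcases hg with rfl | hg
    · rw [hσ i]; exact refl_fix _ _ vi
    · rw [Set.mem_singleton_iff] at hg
      subst hg
      rw [hσ j]; exact refl_fix _ _ vj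
  | one => simp
  | mul a b _ _ ha hb => rw [map_mul, Module.End.mul_apply, hb, ha]
  | inv a _ ha =>
    have e : σ a⁻¹ (σ a v) = v := by
      rw [← Module.End.mul_apply, ← map_mul, inv_mul_cancel, map_one, Module.End.one_apply]
    rw [ha] at e
    exact e

theorem ss_ne_one (M : CoxeterMatrix (Fin 3)) (i : Fin 3) : ss M i ≠ 1 := by
  intro h
  have h1 := M.toCoxeterSystem.length_simple i
  rw [show M.toCoxeterSystem.simple i = 1 from h, M.toCoxeterSystem.length_one] at h1
  exact zero_ne_one h1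

theorem ss_mul (M : CoxeterMatrix (Fin 3)) (i : Fin 3) : ss M i * ss M i = 1 :=
  M.toCoxeterSystem.simple_mul_simple_self i

theorem ss_ne {M : CoxeterMatrix (Fin 3)} {al : Fin 3 → V4} {σ : M.Group →* Module.End ℝ V4}
    (hN : Nrm M al) (hσ : Sg M al σ) {i j : Fin 3} (hij : i ≠ j) : ss M i ≠ ss M j := by
  intro h
  have h1 : Pool.Agent.H57.CP.refl (al i) (al j) = Pool.Agent.H57.CP.refl (al j) (al j) := by
    rw [← hσ i, ← hσ j, h]
  rw [refl_eq, refl_eq, hN.unit j] at h1
  have hl := hN.li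
  rw [Fintype.linearIndependent_iff] at hl
  have h2 := hl (fun l => if l = i then 2 * mk (al i) (al j) else if l = j then 2 else 0) (by
    rw [Finset.sum_eq_add i j hij]
    · rw [if_pos rfl, if_neg hij.symm, if_pos rfl]
      have h3 : (2 * mk (al i) (al j)) • al i = (2 * (-1 : ℝ)) • al j := add_left_cancel h1
      rw [h3, ← add_smul]
      norm_num
    · intro c _ hc
      rw [if_neg hc.1, if_neg hc.2, zero_smul]
    · intro hc; exact absurd (Finset.mem_univ _) hc
    · intro hc; exact absurd (Finset.mem_univ _) hc) j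
  rw [if_neg hij.symm, if_pos rfl] at h2
  norm_num at h2

theorem li_swap {a b c : V4} (h : LinearIndependent ℝ ![a, b, c]) : LinearIndependent ℝ ![a, c, b] := by
  have h2 := (linearIndependent_equiv (Equiv.swap (1 : Fin 3) 2)).2 h
  have e : (![a, b, c] : Fin 3 → V4) ∘ (Equiv.swap (1 : Fin 3) 2) = ![a, c, b] := by
    funext t
    fin_cases t
    · rfl
    · rfl
    · rfl
  rwa [e] at h2

theorem pf (h1 : T_SGE) (h2 : T_CHM) (h3 : T_LII) (h4 : T_DSW) : T_BWS := by
  intro M al σ ψ hN hσ hψ hinj i j k l w v hij hik hjk hM vi vj vk r hr htop hrv hli hfr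
  obtain ⟨hLor, hfaith, -⟩ := h1 M al σ hN hσ
  have hσr : σ r = Pool.Agent.H57.CP.refl (σ w (al l)) := by rw [hr, refl_conj hσ hLor]
  have hrr : r * r = 1 := by
    rw [hr]
    have := ss_mul M l
    calc w * ss M l * w⁻¹ * (w * ss M l * w⁻¹) = w * (ss M l * ss M l) * w⁻¹ := by group
      _ = 1 := by rw [this]; group
  have hnn : mk (σ w (al l)) (σ w (al l)) = -1 := by rw [(hLor w).1, hN.unit l]
  have vle : ∀ t, mk v.1 (al t) ≤ 0 := by
    intro t
    have ht : t = i ∨ t = j ∨ t = k := by omega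
    rcases ht with rfl | rfl | rfl
    · exact vi.le
    · exact vj.le
    · exact vk.le
  -- the group
  have hG : G3 (ψ r) (ψ (ss M i)) (ψ (ss M j)) = (⊤ : Subgroup M.Group).map ψ := by
    unfold G3
    rw [cl3, htop]
  have hG' : ∀ g ∈ G3 (ψ r) (ψ (ss M i)) (ψ (ss M j)), ∃ u : M.Group, g = ψ u := by
    intro g hg
    rw [hG] at hg
    obtain ⟨u, -, hu⟩ := hg
    exact ⟨u, hu.symm⟩
  have ext : ∀ (u : M.Group) (x : H3), σ u x.1 = (ψ u x).1 := fun u x => (hψ u).2 x
  have fixv : ∀ (u : M.Group) (x : H3), σ u x.1 = x.1 → ψ u x = x := by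
    intro u x h
    apply Subtype.ext
    rw [← ext]
    exact h
  have fixv' : ∀ (u : M.Group) (x : H3), ψ u x = x → σ u x.1 = x.1 := by
    intro u x h
    rw [ext, h]
  have hrvv : (ψ r v).1 = v.1 + (2 * mk (σ w (al l)) v.1) • σ w (al l) := by
    rw [← ext, hσr, refl_eq]
  have hcoef : (2 * mk (σ w (al l)) v.1) ≠ 0 := by
    rw [mk_comm']
    exact mul_ne_zero two_ne_zero hrv
  have hn0 : σ w (al l) ≠ 0 := by
    intro h0
    rw [h0] at hnn
    simp [mk] at hnn
  refine
    { ir := (hψ r).1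
      ia := (hψ _).1
      ib := (hψ _).1
      rr := by rw [← map_mul, hrr, map_one]
      aa := by rw [← map_mul, ss_mul, map_one]
      bb := by rw [← map_mul, ss_mul, map_one]
      a1 := fun h => ss_ne_one M i (hinj (by rw [h, map_one]))
      b1 := fun h => ss_ne_one M j (hinj (by rw [h, map_one]))
      ab := fun h => ss_ne hN hσ hij (hinj h)
      av := fixv _ _ (by rw [hσ i]; exact refl_fix _ _ vi)
      bv := fixv _ _ (by rw [hσ j]; exact refl_fix _ _ vj)
      rv := ?_
      st := ?_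
      fr := ?_
      ra := ?_
      rb := ?_
      di := ?_ }
  · intro h
    have h5 := hrvv
    rw [h] at h5
    have h6 : (2 * mk (σ w (al l)) v.1) • σ w (al l) = 0 := by
      have : v.1 + (2 * mk (σ w (al l)) v.1) • σ w (al l) = v.1 + 0 := by rw [← h5, add_zero]
      exact add_left_cancel this
    rcases smul_eq_zero.1 h6 with h7 | h7
    · exact hcoef h7
    · exact hn0 h7
  · intro g hg hgv
    obtain ⟨u, rfl⟩ := hG' g hg
    obtain ⟨-, h6⟩ := h2 M al σ hN hσ u v.1 vle (by rw [fixv' u v hgv]; exact vle)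
    rw [cl2]
    refine ⟨u, ?_, rfl⟩
    refine (Subgroup.closure_le _).2 ?_ h6
    rintro s ⟨t, ht, rfl⟩
    have ht' : t = i ∨ t = j ∨ t = k := by omega
    rcases ht' with rfl | rfl | rfl
    · exact Subgroup.subset_closure (by simp)
    · exact Subgroup.subset_closure (by simp)
    · exact absurd ht vk.ne
  · intro g hg hgr
    rw [cl2] at hg
    obtain ⟨u, hu, rfl⟩ := hg
    have h6 := fixv' u _ hgr
    rw [hrvv, map_add, map_smul, fixes hσ vi vj u hu] at h6
    have h7 : σ u (σ w (al l)) = σ w (al l) := by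
      have h8 := add_left_cancel h6
      exact smul_right_injective _ hcoef h8
    rw [hfr u hu h7, map_one]
  · intro g hg hg'
    rw [cl2] at hg hg'
    obtain ⟨u, hu, rfl⟩ := hg
    obtain ⟨u', hu', he⟩ := hg'
    have hee := hinj he
    subst hee
    have m1 := map_cl σ hrr (ss_mul M i) hu
    have m2 := map_cl σ (ss_mul M i) (ss_mul M j) hu'
    rw [hσr, hσ i] at m1
    rw [hσ i, hσ j] at m2
    rcases h3 (σ w (al l)) (al i) (al j) (σ u') hnn (hN.unit i) (hN.unit j) hli (hLor u').1 m1 m2 with h5 | h5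
    · left
      rw [hfaith u' h5, map_one]
    · right
      have h6 : σ (u' * ss M i) = 1 := by
        rw [map_mul, h5, ← hσ i, ← map_mul, ss_mul, map_one]
      have h7 := hfaith _ h6
      have h8 : u' = ss M i := by
        rw [mul_eq_one_iff_eq_inv] at h7
        rw [h7]
        exact M.toCoxeterSystem.inv_simple i
      rw [h8]
  · intro g hg hg'
    rw [cl2] at hg hg'
    obtain ⟨u, hu, rfl⟩ := hg
    obtain ⟨u', hu', he⟩ := hg'
    have hee := hinj he
    subst hee
    have m1 := map_cl σ hrr (ss_mul M j) hu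
    rw [Set.pair_comm] at hu'
    have m2 := map_cl σ (ss_mul M j) (ss_mul M i) hu'
    rw [hσr, hσ j] at m1
    rw [hσ i, hσ j] at m2
    rcases h3 (σ w (al l)) (al j) (al i) (σ u') hnn (hN.unit j) (hN.unit i) (li_swap hli) (hLor u').1 m1 m2 with
      h5 | h5
    · left
      rw [hfaith u' h5, map_one]
    · right
      have h6 : σ (u' * ss M j) = 1 := by
        rw [map_mul, h5, ← hσ j, ← map_mul, ss_mul, map_one]
      have h7 := hfaith _ h6
      have h8 : u' = ss M j := by
        rw [mul_eq_one_iff_eq_inv] at h7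
        rw [h7]
        exact M.toCoxeterSystem.inv_simple j
      rw [h8]
  · obtain ⟨ε, hε, h5⟩ := h4 M al σ hN hσ i j k hij hik hjk hM v v vi vj vk vle
    refine ⟨ε, hε, ?_⟩
    intro g hg hgv
    obtain ⟨u, rfl⟩ := hG' g hg
    have h6 := h5 u (fun h => hgv (fixv u v h))
    unfold ch
    rw [← ext]
    exact h6

end Pool.Agent.H70.TOH.BWS
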