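import Mathlib
import Pool.Agent.H70.TOH.BWS

/-!
# Three simple reflections give an A-structure (module AWS)
-/

namespace Pool.Agent.H70.TOH.AWS

open Pool.Agent.H57.CP Pool.Agent.H39.TO Pool.Agent.H70.TOH.BWS

theorem meet (h3 : T_LII) {M : CoxeterMatrix (Fin 3)} {al : Fin 3 → V4} {σ : M.Group →* Module.End ℝ V4}
    (hN : Nrm M al) (hσ : Sg M al σ) (hLor : ∀ w, Lor (σ w)) (hfaith : ∀ w, σ w = 1 → w = 1)
    {p q r : Fin 3} (hpq : p ≠ q) (hpr : p ≠ r) (hqr : q ≠ r) {u : M.Group}
    (hu : u ∈ Subgroup.closure {ss M p, ss M q}) (hu' : u ∈ Subgroup.closure {ss M q, ss M r}) :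
    u = 1 ∨ u = ss M q := by
  have m1 := map_cl σ (ss_mul M p) (ss_mul M q) hu
  have m2 := map_cl σ (ss_mul M q) (ss_mul M r) hu'
  rw [hσ p, hσ q] at m1
  rw [hσ q, hσ r] at m2
  have hinj : Function.Injective (![p, q, r] : Fin 3 → Fin 3) := by
    intro a b hab
    fin_cases a <;> fin_cases b <;> simp_all [eq_comm]
  have hli : LinearIndependent ℝ ![al p, al q, al r] := by
    have h := hN.li.comp _ hinj
    have e : al ∘ (![p, q, r] : Fin 3 → Fin 3) = ![al p, al q, al r] := by
      funext t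
      fin_cases t
      · rfl
      · rfl
      · rfl
    rwa [e] at h
  rcases h3 (al p) (al q) (al r) (σ u) (hN.unit p) (hN.unit q) (hN.unit r) hli (hLor u).1 m1 m2 with h5 | h5
  · exact Or.inl (hfaith u h5)
  · right
    have h6 : σ (u * ss M q) = 1 := by
      rw [map_mul, h5, ← hσ q, ← map_mul, ss_mul, map_one]
    have h7 := hfaith _ h6
    rw [mul_eq_one_iff_eq_inv] at h7
    rw [h7]
    exact M.toCoxeterSystem.inv_simple q

/-- the stabilizer of a point of the chamber -/
theorem stab (h2 : T_CHM) {M : CoxeterMatrix (Fin 3)} {al : Fin 3 → V4} {σ : M.Group →* Module.End ℝ V4}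
    (hN : Nrm M al) (hσ : Sg M al σ) {p q r : Fin 3} (hpq : p ≠ q) (hpr : p ≠ r) (hqr : q ≠ r) {v : V4}
    (vp : mk v (al p) = 0) (vq : mk v (al q) = 0) (vr : mk v (al r) < 0) {u : M.Group} (hu : σ u v = v) :
    u ∈ Subgroup.closure {ss M p, ss M q} := by
  have vle : ∀ t, mk v (al t) ≤ 0 := by
    intro t
    have ht : t = p ∨ t = q ∨ t = r := by omega
    rcases ht with rfl | rfl | rfl
    · exact vp.le
    · exact vq.le
    · exact vr.le
  obtain ⟨-, h6⟩ := h2 M al σ hN hσ u v vle (by rw [hu]; exact vle)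
  refine (Subgroup.closure_le _).2 ?_ h6
  rintro s ⟨t, ht, rfl⟩
  have ht' : t = p ∨ t = q ∨ t = r := by omega
  rcases ht' with rfl | rfl | rfl
  · exact Subgroup.subset_closure (by simp)
  · exact Subgroup.subset_closure (by simp)
  · exact absurd ht vr.ne

theorem pf (h1 : T_SGE) (h2 : T_CHM) (h3 : T_LII) (h4 : T_DSW) (h5 : T_DIF) : T_AWS := by
  intro M al σ ψ hN hσ hψ hinj i j k v v' hij hik hjk hMik hMjk hq vi vk vj vj' vk' vi'
  obtain ⟨hLor, hfaith, -⟩ := h1 M al σ hN hσ
  have vle : ∀ t, mk v.1 (al t) ≤ 0 := by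
    intro t
    have ht : t = i ∨ t = j ∨ t = k := by omega
    rcases ht with rfl | rfl | rfl
    · exact vi.le
    · exact vj.le
    · exact vk.le
  have vle' : ∀ t, mk v'.1 (al t) ≤ 0 := by
    intro t
    have ht : t = i ∨ t = j ∨ t = k := by omega
    rcases ht with rfl | rfl | rfl
    · exact vi'.le
    · exact vj'.le
    · exact vk'.le
  have hG' : ∀ g ∈ G3 (ψ (ss M i)) (ψ (ss M j)) (ψ (ss M k)), ∃ u : M.Group, g = ψ u := by
    intro g hg
    unfold G3 at hg
    rw [cl3] at hg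
    obtain ⟨u, -, hu⟩ := hg
    exact ⟨u, hu.symm⟩
  have ext : ∀ (u : M.Group) (x : H3), σ u x.1 = (ψ u x).1 := fun u x => (hψ u).2 x
  have fixv : ∀ (u : M.Group) (x : H3), σ u x.1 = x.1 → ψ u x = x := by
    intro u x h
    apply Subtype.ext
    rw [← ext]
    exact h
  have fixv' : ∀ (u : M.Group) (x : H3), ψ u x = x → σ u x.1 = x.1 := by
    intro u x h
    rw [ext, h]
  have hne : ∀ u : M.Group, σ u v.1 ≠ v'.1 := by
    intro u h
    obtain ⟨h6, -⟩ := h2 M al σ hN hσ u v.1 vle (by rw [h]; exact vle')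
    rw [h] at h6
    rw [h6] at vj'
    exact vj.ne vj'
  have hne' : ∀ u : M.Group, σ u v'.1 ≠ v.1 := by
    intro u h
    apply hne u⁻¹
    rw [← h, ← Module.End.mul_apply, ← map_mul, inv_mul_cancel, map_one, Module.End.one_apply]
  refine
    { ia := (hψ _).1
      ib := (hψ _).1
      ic := (hψ _).1
      aa := by rw [← map_mul, ss_mul, map_one]
      bb := by rw [← map_mul, ss_mul, map_one]
      cc := by rw [← map_mul, ss_mul, map_one]
      a1 := fun h => ss_ne_one M i (hinj (by rw [h, map_one]))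
      b1 := fun h => ss_ne_one M j (hinj (by rw [h, map_one]))
      c1 := fun h => ss_ne_one M k (hinj (by rw [h, map_one]))
      ab := fun h => ss_ne hN hσ hij (hinj h)
      ac := fun h => ss_ne hN hσ hik (hinj h)
      bc := fun h => ss_ne hN hσ hjk (hinj h)
      av := fixv _ _ (by rw [hσ i]; exact refl_fix _ _ vi)
      cv := fixv _ _ (by rw [hσ k]; exact refl_fix _ _ vk)
      bv' := fixv _ _ (by rw [hσ j]; exact refl_fix _ _ vj')
      cv' := fixv _ _ (by rw [hσ k]; exact refl_fix _ _ vk')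
      st := ?_
      st' := ?_
      ne := ?_
      ia1 := ?_
      ib1 := ?_
      ic1 := ?_
      q3 := ?_
      di := ?_ }
  · intro g hg hgv
    obtain ⟨u, rfl⟩ := hG' g hg
    rw [cl2]
    exact ⟨u, stab h2 hN hσ hik hij hjk.symm vi vk vj (fixv' u v hgv), rfl⟩
  · intro g hg hgv
    obtain ⟨u, rfl⟩ := hG' g hg
    rw [cl2]
    exact ⟨u, stab h2 hN hσ hjk hij.symm hik.symm vj' vk' vi' (fixv' u v' hgv), rfl⟩
  · intro g hg hgv
    obtain ⟨u, rfl⟩ := hG' g hg
    apply hne u
    rw [ext, hgv]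
  · intro g hg hg'
    rw [Set.pair_comm, cl2] at hg
    rw [cl2] at hg'
    obtain ⟨u, hu, rfl⟩ := hg
    obtain ⟨u', hu', he⟩ := hg'
    have hee := hinj he
    subst hee
    rcases meet h3 hN hσ hLor hfaith hij.symm hjk hik hu hu' with h6 | h6
    · left; rw [h6, map_one]
    · right; rw [h6]
  · intro g hg hg'
    rw [cl2] at hg
    rw [cl2] at hg'
    obtain ⟨u, hu, rfl⟩ := hg
    obtain ⟨u', hu', he⟩ := hg'
    have hee := hinj he
    subst hee
    rcases meet h3 hN hσ hLor hfaith hij hik hjk hu hu' with h6 | h6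
    · left; rw [h6, map_one]
    · right; rw [h6]
  · intro g hg hg'
    rw [cl2] at hg
    rw [Set.pair_comm, cl2] at hg'
    obtain ⟨u, hu, rfl⟩ := hg
    obtain ⟨u', hu', he⟩ := hg'
    have hee := hinj he
    subst hee
    rcases meet h3 hN hσ hLor hfaith hik hij hjk.symm hu hu' with h6 | h6
    · left; rw [h6, map_one]
    · right; rw [h6]
  · by_contra hc
    push Not at hc
    have key : ∀ p q : Fin 3, p ≠ q → M p q ≠ 0 → (ψ (ss M p) * ψ (ss M q)) ^ 2 = 1 → M p q = 2 := by
      intro p q hpq h0 h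
      rw [← map_mul, ← map_pow] at h
      have h6 : (ss M p * ss M q) ^ 2 = 1 := hinj (by rw [h, map_one])
      have h7 := ((h5 M al σ hN hσ p q hpq h0).2 2).1 h6
      have h8 := M.off_diagonal p q hpq
      have h9 := Nat.le_of_dvd (by norm_num) h7
      omega
    rcases hq with h | h
    · exact h (key i k hik hMik hc.1)
    · exact h (key j k hjk hMjk hc.2)
  · obtain ⟨e1, he1, d1⟩ := h4 M al σ hN hσ i k j hik hij hjk.symm hMik v v vi vk vj vle
    obtain ⟨e2, he2, d2⟩ := h4 M al σ hN hσ j k i hjk hij.symm hik.symm hMjk v' v' vj' vk' vi' vle'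
    obtain ⟨e3, he3, d3⟩ := h4 M al σ hN hσ i k j hik hij hjk.symm hMik v v' vi vk vj vle'
    refine ⟨min e1 (min e2 e3), lt_min he1 (lt_min he2 he3), ?_⟩
    have l1 : min e1 (min e2 e3) ≤ e1 := min_le_left _ _
    have l2 : min e1 (min e2 e3) ≤ e2 := (min_le_right _ _).trans (min_le_left _ _)
    have l3 : min e1 (min e2 e3) ≤ e3 := (min_le_right _ _).trans (min_le_right _ _)
    intro g hg
    obtain ⟨u, rfl⟩ := hG' g hg
    refine ⟨fun hgv => ?_, fun hgv => ?_, ?_⟩
    · have h6 := d1 u (fun h => hgv (fixv u v h))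
      rw [ext] at h6
      unfold ch
      linarith
    · have h6 := d2 u (fun h => hgv (fixv u v' h))
      rw [ext] at h6
      unfold ch
      linarith
    · have h6 := d3 u (hne' u)
      rw [ext] at h6
      unfold ch
      linarith

end Pool.Agent.H70.TOH.AWS
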