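import Mathlib
import Pool.Agent.H39.TO.Targets

/-!
# Discreteness of the orbits (module DSW)
-/

namespace Pool.Agent.H70.TOH.DSW

open Pool.Agent.H57.CP Pool.Agent.H39.TO

theorem fin_gap {α : Type} (S : Set α) (hS : S.Finite) (f : α → ℝ) (hf : ∀ g ∈ S, 1 < f g) :
    ∃ ε : ℝ, 0 < ε ∧ ∀ g ∈ S, 1 + ε ≤ f g := by
  by_cases hne : S.Nonempty
  · obtain ⟨g0, hg0, hmin⟩ := Set.exists_min_image S f hS hne
    exact ⟨f g0 - 1, by have := hf g0 hg0; linarith, fun g hg => by have := hmin g hg; linarith⟩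
  · exact ⟨1, one_pos, fun g hg => absurd ⟨g, hg⟩ hne⟩

theorem mk_comm' (x y : V4) : mk x y = mk y x := by simp only [mk]; ring

theorem mk_refl (a z u : V4) : mk z (refl a u) = mk z u + 2 * mk a u * mk z a := by
  simp only [mk, Pool.Agent.H57.CP.refl, LinearMap.coe_mk, AddHom.coe_mk]; ring

theorem refl_fix (a u : V4) (h : mk u a = 0) : refl a u = u := by
  have h' : mk a u = 0 := by rw [mk_comm', h]
  ext i
  simp [Pool.Agent.H57.CP.refl, h']

theorem mk_add_left (x y z : V4) : mk (x + y) z = mk x z + mk y z := by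
  simp only [mk, Pi.add_apply]; ring

/-- a Lorentz map as a map of points -/
theorem pt_of_lor {A : V4 →ₗ[ℝ] V4} (hA : Lor A) (y : H3) : ∃ y' : H3, y'.1 = A y.1 :=
  ⟨⟨A y.1, by rw [hA.1]; exact y.2.1, hA.2 y⟩, rfl⟩

theorem pf (h1 : T_CHM) (h2 : T_DIF) (h3 : T_SGE) (h4 : T_OPP) (h5 : T_CTR) : T_DSW := by
  intro M al σ hN hσ i j k hij hik hjk hM x y xi xj xk hy
  obtain ⟨hLor, -, -⟩ := h3 M al σ hN hσ
  obtain ⟨hfin, -⟩ := h2 M al σ hN hσ i j hij hM
  have hm2 : 2 ≤ M i j := by
    have := M.off_diagonal i j hij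
    omega
  -- the elements of the dihedral group fix x
  have hfix : ∀ g ∈ Subgroup.closure {ss M i, ss M j}, σ g x.1 = x.1 := by
    intro g hg
    induction hg using Subgroup.closure_induction with
    | mem g hg =>
      rcases hg with rfl | hg
      · rw [hσ i]; exact refl_fix _ _ xi
      · rw [Set.mem_singleton_iff] at hg
        subst hg
        rw [hσ j]; exact refl_fix _ _ xj
    | one => simp
    | mul a b _ _ ha hb => rw [map_mul, Module.End.mul_apply, hb, ha]
    | inv a _ ha =>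
      have e : σ a⁻¹ (σ a x.1) = x.1 := by
        rw [← Module.End.mul_apply, ← map_mul, inv_mul_cancel, map_one, Module.End.one_apply]
      rw [ha] at e
      exact e
  -- the vector z
  have hc : Real.cos (Real.pi / (M i j : ℕ)) < 1 := by
    have hm0 : (0 : ℝ) < (M i j : ℕ) := by exact_mod_cast (by omega : 0 < M i j)
    have hm : (2 : ℝ) ≤ (M i j : ℕ) := by exact_mod_cast hm2
    have h0 : 0 < Real.pi / (M i j : ℕ) := by positivity
    have h1 : Real.pi / (M i j : ℕ) ≤ Real.pi := by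
      apply div_le_self Real.pi_pos.le
      linarith
    have := Real.strictAntiOn_cos (Set.left_mem_Icc.2 Real.pi_pos.le) ⟨h0.le, h1⟩ h0
    rwa [Real.cos_zero] at this
  have zi : mk (al i + al j) (al i) < 0 := by
    rw [mk_add_left, hN.unit i, mk_comm' (al j), hN.fin i j hij hM]
    linarith
  have zj : mk (al i + al j) (al j) < 0 := by
    rw [mk_add_left, hN.unit j, hN.fin i j hij hM]
    linarith
  -- the finite part
  obtain ⟨ε1, hε1, he1⟩ := fin_gap {g | g ∈ (Subgroup.closure {ss M i, ss M j} : Subgroup M.Group) ∧ σ g y.1 ≠ x.1}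
    (hfin.subset fun g hg => hg.1) (fun g => mk x.1 (σ g y.1)) (by
      intro g hg
      obtain ⟨y', hy'⟩ := pt_of_lor (hLor g) y
      obtain ⟨q1, q2, -⟩ := h5 x y' x
      rw [← hy']
      rcases lt_or_eq_of_le q1 with h | h
      · exact h
      · exact absurd (by rw [← hy', q2 h.symm]) hg.2)
  -- the other part
  have hs : 1 < Real.sqrt (1 + (mk x.1 (al k)) ^ 2) := by
    rw [Real.lt_sqrt (by norm_num)]
    have : 0 < (mk x.1 (al k)) ^ 2 := by
      have := xk.ne
      positivity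
    linarith
  refine ⟨min ε1 (Real.sqrt (1 + (mk x.1 (al k)) ^ 2) - 1), lt_min hε1 (by linarith), ?_⟩
  intro w hw
  obtain ⟨h, hh, hmin⟩ := Set.exists_min_image (Subgroup.closure {ss M i, ss M j} : Set M.Group)
    (fun g => mk (al i + al j) (σ (g * w) y.1)) hfin ⟨1, Subgroup.one_mem _⟩
  have hhG : h ∈ Subgroup.closure {ss M i, ss M j} := hh
  have mi : mk (σ (h * w) y.1) (al i) ≤ 0 := by
    by_contra hc'
    push Not at hc'
    have h6 : mk (al i + al j) (σ (h * w) y.1) ≤ mk (al i + al j) (σ (ss M i * h * w) y.1) :=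
      hmin (ss M i * h) (Subgroup.mul_mem _ (Subgroup.subset_closure (by simp)) hhG)
    have e6 : σ (ss M i * h * w) y.1 = Pool.Agent.H57.CP.refl (al i) (σ (h * w) y.1) := by
      rw [mul_assoc, map_mul, Module.End.mul_apply, hσ i]
    rw [e6, mk_refl] at h6
    rw [mk_comm'] at hc'
    nlinarith
  have mj : mk (σ (h * w) y.1) (al j) ≤ 0 := by
    by_contra hc'
    push Not at hc'
    have h6 : mk (al i + al j) (σ (h * w) y.1) ≤ mk (al i + al j) (σ (ss M j * h * w) y.1) :=
      hmin (ss M j * h) (Subgroup.mul_mem _ (Subgroup.subset_closure (by simp)) hhG)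
    have e6 : σ (ss M j * h * w) y.1 = Pool.Agent.H57.CP.refl (al j) (σ (h * w) y.1) := by
      rw [mul_assoc, map_mul, Module.End.mul_apply, hσ j]
    rw [e6, mk_refl] at h6
    rw [mk_comm'] at hc'
    nlinarith
  by_cases mkk : mk (σ (h * w) y.1) (al k) ≤ 0
  · have hall : ∀ l, mk (σ (h * w) y.1) (al l) ≤ 0 := by
      intro l
      have hl : l = i ∨ l = j ∨ l = k := by omega
      rcases hl with rfl | rfl | rfl
      · exact mi
      · exact mj
      · exact mkk
    obtain ⟨h7, -⟩ := h1 M al σ hN hσ (h * w) y.1 hy hall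
    have h8 : σ w y.1 = σ h⁻¹ y.1 := by
      have e : σ h⁻¹ (σ (h * w) y.1) = σ w y.1 := by
        rw [← Module.End.mul_apply, ← map_mul, inv_mul_cancel_left]
      rw [← e, h7]
    rw [h8] at hw ⊢
    have := he1 h⁻¹ ⟨Subgroup.inv_mem _ hhG, hw⟩
    have h9 := min_le_left ε1 (Real.sqrt (1 + (mk x.1 (al k)) ^ 2) - 1)
    linarith
  · push Not at mkk
    obtain ⟨y', hy'⟩ := pt_of_lor (hLor (h * w)) y
    have h6 := h4 x y' (al k) (hN.unit k) xk.le (by rw [hy']; exact mkk.le)
    have h7 : mk x.1 (σ w y.1) = ch x y' := by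
      unfold ch
      rw [hy', map_mul, Module.End.mul_apply]
      have e := (hLor h).1 x.1 (σ w y.1)
      rw [hfix h hhG] at e
      exact e.symm
    have h8 : 1 ≤ ch x y' := (h5 x y' x).1
    rw [h7]
    have h9 := min_le_right ε1 (Real.sqrt (1 + (mk x.1 (al k)) ^ 2) - 1)
    have h10 : Real.sqrt (1 + (mk x.1 (al k)) ^ 2) ≤ ch x y' := by
      apply Real.sqrt_le_iff.2
      exact ⟨by linarith, h6⟩
    linarith

end Pool.Agent.H70.TOH.DSW
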