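import Mathlib
import Pool.Agent.H39.TO.Targets

/-!
# The theorem of Tits for Coxeter groups of rank three (module TTS)
-/

open CoxeterSystem

namespace Pool.Agent.H70.TOH.TTS

open Pool.Agent.H57.CP Pool.Agent.H39.TO

variable {B : Type} [Fintype B] [DecidableEq B] {M : CoxeterMatrix B} {W : Type} [Group W]

omit [Fintype B] [DecidableEq B] in
/-- the last letters of an alternating word -/
theorem alt_split (cs : CoxeterSystem M W) (i t : B) (m : ℕ) : ∀ d : ℕ, ∃ u : W, cs.length u ≤ d ∧
    cs.wordProd (alternatingWord i t (m + d)) = u * cs.wordProd (alternatingWord i t m) := by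
  intro d
  induction d with
  | zero => exact ⟨1, by simp, by simp⟩
  | succ d ih =>
    obtain ⟨u, hu, he⟩ := ih
    refine ⟨cs.simple (if Even (m + d) then t else i) * u, ?_, ?_⟩
    · have h1 := cs.length_mul_le (cs.simple (if Even (m + d) then t else i)) u
      rw [cs.length_simple] at h1
      omega
    · rw [← add_assoc, alternatingWord_succ', cs.wordProd_cons, he, mul_assoc]

/-- the abstract form of the theorem -/
theorem core (cs : CoxeterSystem M W) (σ : W →* Module.End ℝ V4) (α : B → V4)
    (hM : ∀ s t, s ≠ t → M s t ≠ 0 → 2 ≤ M s t)
    (hd : ∀ s t, s ≠ t → ∀ k, (M s t = 0 ∨ k < M s t) → ∃ a b : ℝ, 0 ≤ a ∧ 0 ≤ b ∧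
      σ (cs.wordProd (alternatingWord s t k)) (α s) = a • α s + b • α t) :
    ∀ (n : ℕ) (w : W), cs.length w = n → ∀ i, ¬ cs.IsRightDescent w i →
      ∃ c : B → ℝ, (∀ j, 0 ≤ c j) ∧ σ w (α i) = ∑ j, c j • α j := by
  intro n
  induction n using Nat.strong_induction_on with
  | _ n IH =>
    intro w hw i hi
    by_cases h1 : w = 1
    · subst h1
      refine ⟨Pi.single i 1, ?_, ?_⟩
      · intro j
        by_cases hj : j = i
        · subst hj; simp
        · simp [Pi.single_apply, hj]
      · simp [Pi.single_apply, ite_smul]
    · obtain ⟨t, ht⟩ := cs.exists_rightDescent_of_ne_one h1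
      have hti : i ≠ t := by
        rintro rfl
        exact hi ht
      classical
      set b : ℕ → W := fun k => cs.wordProd (alternatingWord i t k) with hb
      have bs : ∀ k, b (k + 1) = cs.simple (if Even k then t else i) * b k := by
        intro k
        simp only [hb]
        rw [alternatingWord_succ', cs.wordProd_cons]
      have bl : ∀ k, cs.length (b k) ≤ k := by
        intro k
        have := cs.length_wordProd_le (alternatingWord i t k)
        rwa [length_alternatingWord] at this
      have b0 : b 0 = 1 := by simp [hb, alternatingWord]
      have b1 : b 1 = cs.simple t := by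
        rw [show (1 : ℕ) = 0 + 1 from rfl, bs 0, b0]; simp
      let P : ℕ → Prop := fun k => cs.length (w * (b k)⁻¹) + k = cs.length w
      have P1 : P 1 := by
        show cs.length (w * (b 1)⁻¹) + 1 = cs.length w
        rw [b1, cs.inv_simple]
        exact cs.isRightDescent_iff.1 ht
      have hl1 : 1 ≤ cs.length w := by
        have : cs.length (w * (b 1)⁻¹) + 1 = cs.length w := P1
        omega
      set k := Nat.findGreatest P (cs.length w) with hk
      have Pk : P k := Nat.findGreatest_spec (P := P) hl1 P1
      have k1 : 1 ≤ k := Nat.le_findGreatest hl1 P1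
      have Pk1 : ¬ P (k + 1) := by
        intro h
        have h2 : cs.length (w * (b (k + 1))⁻¹) + (k + 1) = cs.length w := h
        have h3 : k + 1 ≤ Nat.findGreatest P (cs.length w) := Nat.le_findGreatest (by omega) h
        omega
      have Pk' : cs.length (w * (b k)⁻¹) + k = cs.length w := Pk
      set v := w * (b k)⁻¹ with hv
      have hwv : w = v * b k := by rw [hv]; simp
      -- (1)
      have e1 : ¬ cs.IsRightDescent v (if Even k then t else i) := by
        intro h
        rw [cs.isRightDescent_iff] at h
        apply Pk1
        show cs.length (w * (b (k + 1))⁻¹) + (k + 1) = cs.length w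
        rw [bs k, mul_inv_rev, cs.inv_simple, ← mul_assoc, ← hv]
        omega
      -- (2)
      have e2 : ¬ cs.IsRightDescent v (if Even (k - 1) then t else i) := by
        intro h
        rw [cs.isRightDescent_iff] at h
        have h2 : b k = cs.simple (if Even (k - 1) then t else i) * b (k - 1) := by
          rw [← bs (k - 1)]
          congr 1
          omega
        have h3 : w = (v * cs.simple (if Even (k - 1) then t else i)) * b (k - 1) := by
          rw [mul_assoc, ← h2, ← hwv]
        have h4 := cs.length_mul_le (v * cs.simple (if Even (k - 1) then t else i)) (b (k - 1))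
        rw [← h3] at h4
        have h5 := bl (k - 1)
        omega
      have ei : ¬ cs.IsRightDescent v i ∧ ¬ cs.IsRightDescent v t := by
        rcases Nat.even_or_odd k with he | ho
        · have ho' : ¬ Even (k - 1) := by
            rw [Nat.not_even_iff_odd]
            obtain ⟨r, hr⟩ := he
            exact ⟨r - 1, by omega⟩
          rw [if_pos he] at e1
          rw [if_neg ho'] at e2
          exact ⟨e2, e1⟩
        · have he' : Even (k - 1) := by
            obtain ⟨r, hr⟩ := ho
            exact ⟨r, by omega⟩
          rw [if_neg (Nat.not_even_iff_odd.2 ho)] at e1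
          rw [if_pos he'] at e2
          exact ⟨e1, e2⟩
      -- (3)
      have hkm : M i t = 0 ∨ k < M i t := by
        by_contra hge
        push Not at hge
        obtain ⟨hne0, hge⟩ := hge
        obtain ⟨u, hu, he⟩ := alt_split cs i t (M i t) (k - M i t)
        have hkk : M i t + (k - M i t) = k := by omega
        rw [hkk] at he
        have hm2 := hM i t hti hne0
        have h2 : cs.wordProd (alternatingWord i t (M i t)) = cs.wordProd (alternatingWord t i (M i t)) := by
          rw [cs.prod_alternatingWord_eq_prod_alternatingWord_sub i t (M i t) (by omega)]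
          congr 2
          omega
        have h3 : alternatingWord t i (M i t) = (alternatingWord i t (M i t - 1)).concat i := by
          rw [← alternatingWord_succ]
          congr 1
          omega
        have h4 : cs.wordProd (alternatingWord i t (M i t)) * cs.simple i =
            cs.wordProd (alternatingWord i t (M i t - 1)) := by
          rw [h2, h3, cs.wordProd_concat, mul_assoc, cs.simple_mul_simple_self, mul_one]
        have h5 : w * cs.simple i = v * (u * cs.wordProd (alternatingWord i t (M i t - 1))) := by
          rw [← h4, ← mul_assoc u, ← he, ← mul_assoc, ← hwv]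
        have h6 := cs.length_mul_le v (u * cs.wordProd (alternatingWord i t (M i t - 1)))
        have h7 := cs.length_mul_le u (cs.wordProd (alternatingWord i t (M i t - 1)))
        have h8 := cs.length_wordProd_le (alternatingWord i t (M i t - 1))
        rw [length_alternatingWord] at h8
        rw [← h5] at h6
        apply hi
        show cs.length (w * cs.simple i) < cs.length w
        omega
      -- (4)
      obtain ⟨a, c, ha, hc, hac⟩ := hd i t hti k hkm
      have hlt : cs.length v < n := by omega
      obtain ⟨p, hp, ep⟩ := IH _ hlt v rfl i ei.1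
      obtain ⟨q, hq, eq⟩ := IH _ hlt v rfl t ei.2
      refine ⟨fun j => a * p j + c * q j, fun j => by
        have := hp j; have := hq j; positivity, ?_⟩
      have h9 : σ w (α i) = σ v (σ (b k) (α i)) := by
        conv_lhs => rw [hwv, map_mul]
        rfl
      rw [h9, hac, map_add, map_smul, map_smul, ep, eq, Finset.smul_sum, Finset.smul_sum,
        ← Finset.sum_add_distrib]
      refine Finset.sum_congr rfl fun j _ => ?_
      rw [smul_smul, smul_smul, ← add_smul]

theorem pf (h1 : T_DHG) : T_TTS := by
  intro M al σ hN hσ w i hi
  have hM : ∀ s t : Fin 3, s ≠ t → M s t ≠ 0 → 2 ≤ M s t := by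
    intro s t hst h0
    have := M.off_diagonal s t hst
    omega
  refine core M.toCoxeterSystem σ al hM ?_ _ w rfl i hi
  intro s t hst k hk
  have h4 : ∀ k, σ (M.toCoxeterSystem.wordProd (alternatingWord s t k)) =
      alt (M := Module.End ℝ V4) (refl (al s)) (refl (al t)) k := by
    intro k
    induction k with
    | zero => simp [alternatingWord, alt]
    | succ k ih =>
      rw [alternatingWord_succ', wordProd_cons, map_mul, ih, alt]
      by_cases he : Even k
      · simp only [if_pos he]
        rw [hσ t]
      · simp only [if_neg he]
        rw [hσ s]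
  rw [h4 k]
  by_cases h0 : M s t = 0
  · exact h1 (al s) (al t) 0 k (hN.unit s) (hN.unit t) (Or.inr (hN.inf s t hst h0))
  · have hk' : k < M s t := hk.resolve_left h0
    exact h1 (al s) (al t) (M s t) k (hN.unit s) (hN.unit t) (Or.inl ⟨hM s t hst h0, hN.fin s t hst h0, hk'⟩)

end Pool.Agent.H70.TOH.TTS
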