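import Mathlib
import Pool.Agent.H39.TO.Targets

/-!
# The chamber (module CHM)
-/

namespace Pool.Agent.H70.TOH.CHM

open Pool.Agent.H57.CP Pool.Agent.H39.TO

theorem mk_comm' (x y : V4) : mk x y = mk y x := by simp only [mk]; ring

theorem refl_fix (a u : V4) (h : mk u a = 0) : Pool.Agent.H57.CP.refl a u = u := by
  have h' : mk a u = 0 := by rw [mk_comm', h]
  ext i
  simp [Pool.Agent.H57.CP.refl, h']

theorem mk_sum3 (x : V4) (c : Fin 3 → ℝ) (al : Fin 3 → V4) :
    mk x (∑ j, c j • al j) = ∑ j, c j * mk x (al j) := by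
  simp only [mk, Fin.sum_univ_three, Pi.add_apply, Pi.smul_apply, smul_eq_mul]
  ring

theorem pf (h2 : T_SGE) : T_CHM := by
  intro M al σ hN hσ w x hx
  obtain ⟨hLor, -, hneg⟩ := h2 M al σ hN hσ
  suffices H : ∀ (n : ℕ) (w : M.Group), M.toCoxeterSystem.length w = n → (∀ i, mk (σ w x) (al i) ≤ 0) →
      σ w x = x ∧ w ∈ Subgroup.closure {s | ∃ i, mk x (al i) = 0 ∧ s = ss M i} from H _ w rfl
  intro n
  induction n using Nat.strong_induction_on with
  | _ n IH =>
    intro w hw hwx
    by_cases h1 : w = 1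
    · subst h1
      exact ⟨by simp, Subgroup.one_mem _⟩
    · obtain ⟨i, hi⟩ := M.toCoxeterSystem.exists_leftDescent_of_ne_one h1
      obtain ⟨c, hc, hce⟩ := hneg w⁻¹ i ((M.toCoxeterSystem.isRightDescent_inv_iff).2 hi)
      have e1 : mk (σ w x) (al i) = mk x (σ w⁻¹ (al i)) := by
        have e := (hLor w⁻¹).1 (σ w x) (al i)
        rw [← e, ← Module.End.mul_apply, ← map_mul, inv_mul_cancel, map_one, Module.End.one_apply]
      have h0 : mk (σ w x) (al i) = 0 := by
        apply le_antisymm (hwx i)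
        rw [e1, hce, mk_sum3]
        exact Finset.sum_nonneg fun j _ => mul_nonneg_of_nonpos_of_nonpos (hc j) (hx j)
      have hfx : σ (ss M i * w) x = σ w x := by
        rw [map_mul, Module.End.mul_apply, hσ i]
        exact refl_fix _ _ h0
      have hlt : M.toCoxeterSystem.length (ss M i * w) < n := by
        rw [← hw]
        exact hi
      obtain ⟨h3, h4⟩ := IH _ hlt (ss M i * w) rfl (by rw [hfx]; exact hwx)
      rw [hfx] at h3
      refine ⟨h3, ?_⟩
      have h5 : w = ss M i * (ss M i * w) := by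
        rw [← mul_assoc, M.toCoxeterSystem.simple_mul_simple_self, one_mul]
      rw [h5]
      exact Subgroup.mul_mem _ (Subgroup.subset_closure ⟨i, by rw [← h3]; exact h0, rfl⟩) h4

end Pool.Agent.H70.TOH.CHM
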